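import Pool.Agent.H10.IdioMain

set_option autoImplicit false

namespace Pool.Agent.Results.MP_15d263_co.Idiomeric

open Pool.Agent.H10.Idio

/-- Q1 of MP_15d263_co. `T(x,y)` has an idiomeric tiling on the unit square grid if and only if
`x` and `y` are not both even; if tiles are allowed off the grid, it always has one. -/
theorem result : ∀ x y : ℤ, 2 ≤ max |x| |y| →
    ((∃ 𝒯 : Set (Set E), IsIdiomeric (T x y) 𝒯 ∧ OnGrid 𝒯) ↔ ¬ (Even x ∧ Even y)) ∧
      ∃ 𝒯 : Set (Set E), IsIdiomeric (T x y) 𝒯 :=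
  main

end Pool.Agent.Results.MP_15d263_co.Idiomeric
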